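import Pool.Agent.R647.Chev.Quot
import Pool.Agent.R647.Chev.Sqrt5

/-!
For the Chevalley-Demazure group scheme `PGL₂ⁿ` of rank `n ≥ 1` and a number field `K` with ring
of integers `R`, the quotient of the spherical building of `PGL₂(K)ⁿ` by `PGL₂(R)ⁿ` is isomorphic
to the quotient of the building of `SL₂(K)ⁿ` by `SL₂(R)ⁿ` exactly when the class number of `K` is
odd; for `K = ℚ(√-5)` it is not isomorphic, in every rank.
-/

namespace Pool.Agent.Results.MP_a12d4e_al.PGLQuotients

open Pool.Agent.R647.Chev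
open scoped NumberField

theorem result :
    (∀ (K : Type) [Field K] [NumberField K] (n : ℕ), 1 ≤ n →
      (Nonempty (face (intPGL (𝓞 K) K) (BorP K) n ≃r face (intSL (𝓞 K) K) (BorS K) n) ↔
        Odd (NumberField.classNumber K))) ∧
    ∃ (K : Type) (_ : Field K) (_ : NumberField K), ∀ n : ℕ, 1 ≤ n →
      ¬ Nonempty (face (intPGL (𝓞 K) K) (BorP K) n ≃r face (intSL (𝓞 K) K) (BorS K) n) := by
  refine ⟨fun K _ _ n hn => iso_iff_odd K n hn, K5, inferInstance, inferInstance, ?_⟩
  intro n hn h
  exact even_class ((iso_iff_odd K5 n hn).1 h)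

end Pool.Agent.Results.MP_a12d4e_al.PGLQuotients
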