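import Pool.Agent.R647.Chev.SpQuot

/-!
For `G = Sp₂ₙ`, every Dedekind domain `R` with fraction field `K` (in particular every ring of
integers of a number field) and every `n`, the natural map (dimension and Steinitz class) from the
quotient of the building of `Sp₂ₙ(K)` by `Sp₂ₙ(R)` to the join of `n` copies of the class group is
an isomorphism, and the quotient is isomorphic to that of `SL₂ⁿ`.
-/

namespace Pool.Agent.Results.MP_a12d4e_al.SymplecticQuotient

open Pool.Agent.R647.Chev

theorem result (R K : Type*) [CommRing R] [IsDedekindDomain R] [Field K] [Algebra R K]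
    [IsFractionRing R K] (n : ℕ) :
    (∃ e : spFace R K n ≃r joinFace (ClassGroup R) n,
      ∀ (F : Flag n K) (i : Fin n) (c : ClassGroup R),
        (e (spMk R F)).1 i = some c ↔ ∃ V ∈ F.1, Module.finrank K V = i + 1 ∧ IsSt R V c) ∧
    Nonempty (spFace R K n ≃r face (intSL R K) (BorS K) n) := by
  obtain ⟨e, he⟩ := sp_join (R := R) (K := K) (n := n)
  obtain ⟨e2⟩ := quot_SL R K n
  refine ⟨⟨e, he⟩, ⟨e.trans ?_⟩⟩
  exact ⟨e2.symm.toEquiv, fun {a b} => e2.symm.map_rel_iff⟩

end Pool.Agent.Results.MP_a12d4e_al.SymplecticQuotient
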